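import Pool.Agent.N623.PEG.Wild

/-! The parity argument for odd families of curves with wild arcs. -/

set_option autoImplicit false
open Complex Set Topology Metric

namespace Pool.Agent.N623.PEG

open Pool.Agent.H763R2 Pool.Agent.H763R2.An Pool.Agent.W675.Peg Pool.Agent.TH569.Peg
open Pool.Agent.Y535.PEG
open Pool.Agent.H763R2.Dm (NoSq floor_const)

/-- the parity argument for a family of curves -/
theorem grand_false_wild {N : ℕ} (hN : Odd N) {c : Fin N → ℝ → ℂ} (L : ∀ k, Loop (c k))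
    (J : ∀ k, Inj (c k)) (nosq : ∀ k, NoSq (range (c k))) {n : Fin N → ℕ} (hn : ∀ k, 2 ≤ n k)
    {t : Fin N → ℕ → ℝ} (ht : ∀ k, ∀ i < n k, t k i < t k (i + 1))
    (ht1 : ∀ k, t k (n k) = t k 0 + 1) {σ : Fin N × ℕ → Fin N × ℕ}
    (hσ : ∀ k, ∀ i < n k, (σ (k, i)).2 < n (σ (k, i)).1 ∧ σ (σ (k, i)) = (k, i))
    (H : ∀ k, ∀ i < n k,
      (Cone (c k) (t k i) ∧ Cone (c k) (t k (i + 1)) ∧ EvA (c k) (t k i) (t k (i + 1))) ∨
      (Cone (c k) (t k i) ∧ Cone (c k) (t k (i + 1)) ∧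
        ∀ s ∈ Icc (t k i) (t k (i + 1)), Mon (c k) s) ∨
      (Cone (c k) (t k i) ∧ Cone (c k) (t k (i + 1)) ∧
        Cone (c (σ (k, i)).1) (t (σ (k, i)).1 (σ (k, i)).2) ∧
        Cone (c (σ (k, i)).1) (t (σ (k, i)).1 ((σ (k, i)).2 + 1)) ∧
        ∃ f, Smx f ∧ f '' (c k '' Icc (t k i) (t k (i + 1))) =
          c (σ (k, i)).1 '' Icc (t (σ (k, i)).1 (σ (k, i)).2) (t (σ (k, i)).1 ((σ (k, i)).2 + 1)) ∧
          (σ (k, i) = (k, i) → f (c k (t k i)) = c k (t k (i + 1)))) ∨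
      (σ (k, i) ≠ (k, i) ∧ Dirc2 (c k) (c (σ (k, i)).1) (t k i) (t k (i + 1))
        (t (σ (k, i)).1 (σ (k, i)).2) (t (σ (k, i)).1 ((σ (k, i)).2 + 1))) ∨
      Mirc2 (c k) (c (σ (k, i)).1) (t k i) (t k (i + 1))
        (t (σ (k, i)).1 (σ (k, i)).2) (t (σ (k, i)).1 ((σ (k, i)).2 + 1))) : False := by
  classical
  have ex := fun k => exDtx (L k) (J k) (nosq k)
  choose Th G N0 Z Y D using ex
  obtain ⟨x0, hx0⟩ := exXg (Gf c (fun k => Nrm (Th k) (N0 k))) Gf.refl
    (fun s t r k k' h h' => h.comp h') (fun s k h => Gf.loop D h)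
  obtain ⟨X, hXc, hXn⟩ : ∃ X : Fin N × ℝ → ZMod 2, (∀ p, Cone (c p.1) p.2 →
      X p = (Y p.1 p.2 : ZMod 2)) ∧ ∀ p, ¬ Cone (c p.1) p.2 → X p = x0 p :=
    ⟨fun p => if Cone (c p.1) p.2 then (Y p.1 p.2 : ZMod 2) else x0 p, fun p hp => if_pos hp,
      fun p hp => if_neg hp⟩
  have hX : ∀ p q k k', Gf c (fun k => Nrm (Th k) (N0 k)) p q k →
      Gf c (fun k => Nrm (Th k) (N0 k)) q p k' → X q = X p + k := by
    intro p q k k' h h'
    by_cases hs : Cone (c p.1) p.2
    · obtain ⟨hc, hl⟩ := h.tame D hs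
      rw [hXc p hs, hXc q hc]
      exact hl
    · have hc : ¬ Cone (c q.1) q.2 := fun hc => hs (h'.tame D hc).1
      rw [hXn p hs, hXn q hc]
      exact hx0 _ _ _ _ h h'
  have hXd : ∀ k s, Cone (c k) s → X (k, s) = (Y k s : ZMod 2) := fun k s h => hXc (k, s) h
  have ar : ∀ k, ∀ i < n k, Cone (c k) (t k i) → Cone (c k) (t k (i + 1)) →
      AR (c k) (t k i) (t k (i + 1)) :=
    fun k i hi c1 c2 => ⟨ht k i hi, ord_len (hn k) (ht k) (ht1 k) hi, c1, c2⟩
  obtain ⟨f, hf⟩ : ∃ f : Fin N × ℕ → ZMod 2, ∀ p, f p =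
      X (p.1, t p.1 (p.2 + 1)) - X (p.1, t p.1 p.2) := ⟨_, fun _ => rfl⟩
  have tot : ∑ p ∈ Finset.univ.sigma (fun k : Fin N => Finset.range (n k)), f (p.1, p.2) = 1 := by
    rw [Finset.sum_sigma]
    have e1 : ∀ k : Fin N, ∑ i ∈ Finset.range (n k), f (k, i) = 1 := fun k => by
      have e2 : ∑ i ∈ Finset.range (n k), f (k, i) =
          ∑ i ∈ Finset.range (n k), (X (k, t k (i + 1)) - X (k, t k i)) :=
        Finset.sum_congr rfl fun i _ => hf (k, i)
      rw [e2, Finset.sum_range_sub (fun i => X (k, t k i)), ht1 k,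
        hX _ _ _ _ (Gf.shift D k (t k 0)) (Gf.unshift D k (t k 0)), add_sub_cancel_left]
      exact z2_of_odd (D k).odd
    rw [Finset.sum_congr rfl (fun k _ => e1 k), Finset.sum_const, Finset.card_univ, Fintype.card_fin,
      nsmul_eq_mul, mul_one]
    have := z2_of_odd (m := (N : ℤ)) (by exact_mod_cast hN)
    simpa using this
  have one : ∀ k, ∀ i < n k, (f (k, i) = 0 ∨ f (σ (k, i)) = f (k, i)) ∧
      (σ (k, i) = (k, i) → f (k, i) = 0) := fun k i hi => by
    have hj := (hσ k i hi).1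
    rcases H k i hi with ⟨c1, c2, h⟩ | ⟨c1, c2, h⟩ | ⟨c1, c2, c3, c4, T, hT, k2, k3⟩ | ⟨hne, h⟩ | h
    · have e : f (k, i) = 0 := by
        rw [hf]
        simp only
        rw [hXd _ _ c1, hXd _ _ c2]
        have a1 := ar k i hi c1 c2
        obtain ⟨m, hm⟩ := eva_even (D k).L (D k).J (D k).nosq (D k).pos (D k).A a1
          ((D k).lev _ a1.ha) ((D k).lev _ a1.hb) h
        have := z2_of_even (m := Y k (t k (i + 1)) - Y k (t k i)) ⟨m, by linarith⟩
        push_cast at this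
        exact this
      exact ⟨Or.inl e, fun _ => e⟩
    · have e : f (k, i) = 0 := by
        rw [hf]
        simp only
        rw [hXd _ _ c1, hXd _ _ c2]
        rw [(D k).mon _ _ (ar k i hi c1 c2) h, sub_self]
      exact ⟨Or.inl e, fun _ => e⟩
    · have a1 := ar k i hi c1 c2
      refine ⟨Or.inr ?_, fun he => ?_⟩
      · obtain ⟨u, v, hu, hTT⟩ := hT
        have a2 := ar _ _ hj c3 c4
        have hp := pair2 (L k) (J k) (D k).pos (D k).A (L _) (J _) (nosq _) (D _).pos (D _).A a1 a2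
          ((D k).lev _ a1.ha) ((D k).lev _ a1.hb) ((D _).lev _ a2.ha) ((D _).lev _ a2.hb) hu
          (v := v) (by
            rcases hTT with h | h
            · left; rw [← h]; exact k2
            · right; rw [← h]; exact k2)
        rw [hf, hf]
        simp only
        rw [hXd _ _ c1, hXd _ _ c2, hXd _ _ c3, hXd _ _ c4]
        have := z2_pm (m := Y k (t k (i + 1)) - Y k (t k i))
          (m' := Y (σ (k, i)).1 (t (σ (k, i)).1 ((σ (k, i)).2 + 1)) -
            Y (σ (k, i)).1 (t (σ (k, i)).1 (σ (k, i)).2)) (by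
          rcases hp with hp | hp
          · left; linarith
          · right; linarith)
        push_cast at this
        exact this
      · rw [hf]
        simp only
        rw [hXd _ _ c1, hXd _ _ c2]
        have := z2_of_even ((D k).slf _ _ a1 ⟨T, hT, by rw [he] at k2; exact k2, k3 he⟩)
        push_cast at this
        exact this
    · refine ⟨Or.inr ?_, fun he => absurd he hne⟩
      rw [hf, hf]
      exact dirc2_x D hX (ht k i hi) (ht _ _ hj) h
    · obtain ⟨e1, e2⟩ := mirc2_x D hX (ht k i hi) (ht _ _ hj) h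
      refine ⟨Or.inr ?_, fun he => ?_⟩
      · rw [hf, hf]
        exact e1
      · rw [hf]
        exact e2 (by rw [he]) (by rw [he]) (by rw [he])
  have key : ∀ k, ∀ i < n k, f (σ (k, i)) = f (k, i) := fun k i hi => by
    obtain ⟨hj, hjj⟩ := hσ k i hi
    rcases (one k i hi).1 with h | h
    · rcases (one _ _ hj).1 with h' | h'
      · rw [h]; exact h'
      · rw [Prod.mk.eta, hjj] at h'
        exact h'.symm
    · exact h
  have h2 : ∑ p ∈ Finset.univ.sigma (fun k : Fin N => Finset.range (n k)), f (p.1, p.2) = 0 := by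
    refine Finset.sum_involution
      (fun p _ => (⟨(σ (p.1, p.2)).1, (σ (p.1, p.2)).2⟩ : (_ : Fin N) × ℕ))
      (fun p hp => ?_) (fun p hp hne he => ?_) (fun p hp => ?_) (fun p hp => ?_)
    · have hi : p.2 < n p.1 := Finset.mem_range.1 (Finset.mem_sigma.1 hp).2
      simp only [Prod.mk.eta]
      rw [key p.1 p.2 hi]
      exact (zm2 _ 0).1
    · have hi : p.2 < n p.1 := Finset.mem_range.1 (Finset.mem_sigma.1 hp).2
      refine hne ((one p.1 p.2 hi).2 ?_)
      have e1 := congrArg Sigma.fst he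
      have e2 := congrArg (fun q : (_ : Fin N) × ℕ => q.2) he
      exact Prod.ext e1 e2
    · have hi : p.2 < n p.1 := Finset.mem_range.1 (Finset.mem_sigma.1 hp).2
      exact Finset.mem_sigma.2 ⟨Finset.mem_univ _, Finset.mem_range.2 (hσ p.1 p.2 hi).1⟩
    · have hi : p.2 < n p.1 := Finset.mem_range.1 (Finset.mem_sigma.1 hp).2
      have e := (hσ p.1 p.2 hi).2
      simp only [Prod.mk.eta]
      rw [e]
  rw [tot] at h2
  exact one_ne_zero h2

end Pool.Agent.N623.PEG
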