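import Pool.Agent.Y535.PEG.Tg5
import Pool.Agent.Y535.PEG.Fre

/-! Arcs across which the squares on the chords wind evenly. -/

set_option autoImplicit false
open Complex Set Topology Metric

namespace Pool.Agent.N623.PEG

open Pool.Agent.H763R2 Pool.Agent.H763R2.An Pool.Agent.W675.Peg Pool.Agent.TH569.Peg
open Pool.Agent.Y535.PEG
open Pool.Agent.H763R2.Dm (NoSq floor_const)

variable {c : ℝ → ℂ} {θ : ℝ → ℝ → ℝ} {g : ℤ}

/-- a path of angles that avoids the middle of the opposite quadrant -/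
theorem avoid_floor {f : ℝ → ℝ} (hf : ContinuousOn f (Icc 0 1)) {l m : ℤ}
    (h0 : l * Real.pi < f 0 ∧ f 0 < l * Real.pi + Real.pi / 2)
    (h1 : (l + 2 * m) * Real.pi < f 1 ∧ f 1 < (l + 2 * m) * Real.pi + Real.pi / 2)
    (hav : ∀ τ ∈ Icc (0:ℝ) 1, ¬ (Real.cos (f 0) * Real.cos (f τ) < 0 ∧
      Real.cos (f 0) * Real.sin (f τ) < 0)) : m = 0 := by
  have hπ := Real.pi_pos
  have h01 : (0:ℝ) ≤ 1 := zero_le_one
  have c0 : 0 < (-1 : ℝ) ^ l * Real.cos (f 0) := by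
    have e : Real.cos (f 0) = (-1) ^ l * Real.cos (f 0 - l * Real.pi) := by
      rw [← Real.cos_add_int_mul_pi]; congr 1; ring
    have e2 : ((-1 : ℝ) ^ l) * ((-1) ^ l) = 1 := by
      rw [← mul_zpow]; norm_num
    rw [e, ← mul_assoc, e2, one_mul]
    exact Real.cos_pos_of_mem_Ioo ⟨by linarith, by linarith⟩
  have s2 : 0 < √2 / 2 := by positivity
  have bad : ∀ a : ℝ, Real.cos a = -(√2 / 2) → Real.sin a = -(√2 / 2) →
      ∀ τ ∈ Icc (0:ℝ) 1, f τ ≠ a + l * Real.pi := by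
    intro a h1 h2 τ hτ he
    refine hav τ hτ ⟨?_, ?_⟩
    · rw [he, Real.cos_add_int_mul_pi, h1]
      nlinarith
    · rw [he, Real.sin_add_int_mul_pi, h2]
      nlinarith
  have q1 : Real.cos (5 * Real.pi / 4) = -(√2 / 2) ∧ Real.sin (5 * Real.pi / 4) = -(√2 / 2) := by
    rw [show 5 * Real.pi / 4 = Real.pi / 4 + Real.pi by ring, Real.cos_add_pi, Real.sin_add_pi,
      Real.cos_pi_div_four, Real.sin_pi_div_four]
    exact ⟨rfl, rfl⟩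
  have q2 : Real.cos (-(3 * Real.pi / 4)) = -(√2 / 2) ∧
      Real.sin (-(3 * Real.pi / 4)) = -(√2 / 2) := by
    rw [show -(3 * Real.pi / 4) = Real.pi / 4 - Real.pi by ring, Real.cos_sub_pi, Real.sin_sub_pi,
      Real.cos_pi_div_four, Real.sin_pi_div_four]
    exact ⟨rfl, rfl⟩
  rcases lt_trichotomy m 0 with h | h | h
  · exfalso
    have h' : (m : ℝ) ≤ -1 := by exact_mod_cast (by omega : m ≤ -1)
    have : -(3 * Real.pi / 4) + l * Real.pi ∈ f '' Icc 0 1 := by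
      refine intermediate_value_Icc' h01 hf ⟨?_, by linarith⟩
      nlinarith
    obtain ⟨τ, hτ, he⟩ := this
    exact bad _ q2.1 q2.2 τ hτ he
  · exact h
  · exfalso
    have h' : (1 : ℝ) ≤ m := by exact_mod_cast (by omega : 1 ≤ m)
    have : 5 * Real.pi / 4 + l * Real.pi ∈ f '' Icc 0 1 := by
      refine intermediate_value_Icc h01 hf ⟨by linarith, ?_⟩
      nlinarith
    obtain ⟨τ, hτ, he⟩ := this
    exact bad _ q1.1 q1.2 τ hτ he

/-- two polar representations of a path -/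
theorem polar_diff {φ ϑ r ρ : ℝ → ℝ} (hφ : ContinuousOn φ (Icc 0 1)) (hϑ : ContinuousOn ϑ (Icc 0 1))
    (h : ∀ τ ∈ Icc (0:ℝ) 1, 0 ≤ r τ ∧ 0 < ρ τ ∧
      r τ * Real.cos (φ τ) = ρ τ * Real.cos (ϑ τ) ∧
      r τ * Real.sin (φ τ) = ρ τ * Real.sin (ϑ τ)) : φ 1 - φ 0 = ϑ 1 - ϑ 0 := by
  have hπ := Real.pi_pos
  have key : ∀ s ∈ Icc (0:ℝ) 1, Real.cos (φ s - ϑ s) = 1 := by
    intro s hs
    obtain ⟨r0, hρ, g1, g2⟩ := h s hs
    have s1 := Real.sin_sq_add_cos_sq (φ s)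
    have s2 := Real.sin_sq_add_cos_sq (ϑ s)
    have hsq : r s ^ 2 = ρ s ^ 2 := by
      calc r s ^ 2 = (r s * Real.cos (φ s)) ^ 2 + (r s * Real.sin (φ s)) ^ 2 := by
              rw [mul_pow, mul_pow, ← mul_add, add_comm, s1, mul_one]
        _ = ρ s ^ 2 := by rw [g1, g2, mul_pow, mul_pow, ← mul_add, add_comm, s2, mul_one]
    have hr : r s = ρ s := (sq_eq_sq₀ r0 hρ.le).1 hsq
    rw [hr] at g1 g2
    have h1 := mul_left_cancel₀ hρ.ne' g1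
    have h2 := mul_left_cancel₀ hρ.ne' g2
    rw [Real.cos_sub, h1, h2]
    linarith
  have fl := floor_pre (V := Icc (0:ℝ) 1) isPreconnected_Icc
    (f := fun s => (φ s - ϑ s) / 2 + Real.pi / 2)
    (((hφ.sub hϑ).div_const 2).add continuousOn_const) (fun s hs h0 => by
      rw [Real.sin_add_pi_div_two] at h0
      have e := Real.cos_two_mul ((φ s - ϑ s) / 2)
      rw [show 2 * ((φ s - ϑ s) / 2) = φ s - ϑ s by ring, key s hs, h0] at e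
      norm_num at e) (z := 0) (w := 1) ⟨le_rfl, zero_le_one⟩ ⟨zero_le_one, le_rfl⟩
  obtain ⟨k0, hk0⟩ := (Real.cos_eq_one_iff _).1 (key 0 ⟨le_rfl, zero_le_one⟩)
  obtain ⟨k1, hk1⟩ := (Real.cos_eq_one_iff _).1 (key 1 ⟨zero_le_one, le_rfl⟩)
  have flr : ∀ k : ℤ, ⌊((k : ℝ) * (2 * Real.pi) / 2 + Real.pi / 2) / Real.pi⌋ = k := by
    intro k
    rw [Int.floor_eq_iff]
    constructor
    · rw [le_div_iff₀ hπ]; linarith
    · rw [div_lt_iff₀ hπ]; linarith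
  simp only [← hk0, ← hk1, flr] at fl
  rw [fl] at hk0
  linarith

/-- a path of chords on which the squares wind evenly -/
def WP (c : ℝ → ℂ) (s t ρ : ℝ) : Prop := ∃ (p : ℝ → ℝ × ℝ) (φ r : ℝ → ℝ) (n : ℤ), Pth p s t ρ ∧
  ContinuousOn φ (Icc 0 1) ∧ (∀ τ ∈ Icc (0:ℝ) 1, 0 ≤ r τ ∧
    mgc c (DD c (p τ).1 (p τ).2) = r τ * Real.cos (φ τ) ∧
    mgc c (CC c (p τ).1 (p τ).2) = r τ * Real.sin (φ τ)) ∧ Even n ∧
  |φ 1 - φ 0 - 2 * Real.pi * n| < Real.pi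

/-- a path of chords on which the two other vertices are never both on the other side -/
def NP (c : ℝ → ℂ) (s t ρ : ℝ) : Prop := ∃ (p : ℝ → ℝ × ℝ) (z : ℂ), Pth p s t ρ ∧
  (z = DD c (p 0).1 (p 0).2 ∨ z = CC c (p 0).1 (p 0).2) ∧ ∀ τ ∈ Icc (0:ℝ) 1,
    ¬ (mgc c z * mgc c (DD c (p τ).1 (p τ).2) < 0 ∧ mgc c z * mgc c (CC c (p τ).1 (p τ).2) < 0)

theorem ends (L : Loop c) (J : Inj c) (A : Ang c (mgc c) θ g) {s : ℝ} (Cs : Cone c s) {l : ℤ}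
    (h : KL θ s l) : ∃ ρ > 0, ∀ x y, |x - s| < ρ → |y - s| < ρ → x < y → y < x + 1 →
      (l * Real.pi < θ x y ∧ θ x y < l * Real.pi + Real.pi / 2) ∧
      0 < Real.cos (θ x y) * Real.sin (θ x y) := by
  obtain ⟨r1, hr1, sa⟩ := cone_sign L J Cs
  obtain ⟨r2, hr2, ka⟩ := h
  refine ⟨min r1 r2, lt_min hr1 hr2, fun x y hx hy hxy hyx => ?_⟩
  rw [lt_min_iff] at hx hy
  have e := ka x y hx.2 hy.2 hxy
  have h9 := cs_pos A hxy hyx (sa x y hx.1 hy.1 hxy).1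
  have := half_fl h9
  rw [e] at this
  exact ⟨this, h9⟩

theorem even_left (L : Loop c) (J : Inj c) {z0 : ℂ} (h0 : 0 < mgc c z0) (A : Ang c (mgc c) θ g)
    {s t : ℝ} (Cs : Cone c s) (Ct : Cone c t) {ls lt : ℤ} (h1 : KL θ s ls) (h2 : KL θ t lt)
    (hp : ∀ ρ > 0, WP c s t ρ) : ∃ k : ℤ, lt - ls = 4 * k := by
  have hπ := Real.pi_pos
  obtain ⟨m, hm⟩ := KL.parity L J h0 A Cs Ct h1 h2
  obtain ⟨r1, hr1, e1⟩ := ends L J A Cs h1
  obtain ⟨r2, hr2, e2⟩ := ends L J A Ct h2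
  obtain ⟨p, φ, r, n, P, hφ, hpol, ⟨k, hk⟩, hn⟩ := hp (min r1 r2) (lt_min hr1 hr2)
  have m0 : (0:ℝ) ∈ Icc (0:ℝ) 1 := ⟨le_rfl, zero_le_one⟩
  have m1 : (1:ℝ) ∈ Icc (0:ℝ) 1 := ⟨zero_le_one, le_rfl⟩
  obtain ⟨a0, cs0⟩ := e1 _ _ (P.s1.trans_le (min_le_left _ _)) (P.s2.trans_le (min_le_left _ _))
    (P.lt 0 m0).1 (P.lt 0 m0).2
  obtain ⟨a1, -⟩ := e2 _ _ (P.t1.trans_le (min_le_right _ _)) (P.t2.trans_le (min_le_right _ _))
    (P.lt 1 m1).1 (P.lt 1 m1).2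
  have hf : ContinuousOn (fun τ => θ (p τ).1 (p τ).2) (Icc 0 1) :=
    A.cont.comp P.cont (fun τ hτ => P.lt τ hτ)
  have ex : ∀ τ, ∃ ρ : ℝ, τ ∈ Icc (0:ℝ) 1 → 0 < ρ ∧
      mgc c (DD c (p τ).1 (p τ).2) = ρ * Real.cos (θ (p τ).1 (p τ).2) ∧
      mgc c (CC c (p τ).1 (p τ).2) = ρ * Real.sin (θ (p τ).1 (p τ).2) := fun τ => by
    by_cases hτ : τ ∈ Icc (0:ℝ) 1
    · obtain ⟨ρ, hρ, f1, f2⟩ := A.ex _ _ (P.lt τ hτ).1 (P.lt τ hτ).2
      exact ⟨ρ, fun _ => ⟨hρ, f1, f2⟩⟩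
    · exact ⟨0, fun h => absurd h hτ⟩
  choose ρ hρ using ex
  have d := polar_diff hφ hf (r := r) (ρ := ρ) (fun τ hτ => by
    obtain ⟨b1, b2, b3⟩ := hpol τ hτ
    obtain ⟨d1, d2, d3⟩ := hρ τ hτ
    exact ⟨b1, d1, b2.symm.trans d2, b3.symm.trans d3⟩)
  rw [d] at hn
  have hml : (lt : ℝ) = ls + 2 * m := by
    have : lt = ls + 2 * m := by linarith
    rw [this]; push_cast; ring
  rw [hml] at a1
  rw [abs_lt] at hn
  have hnk : (n : ℝ) = k + k := by rw [hk]; push_cast; ring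
  have u1 : (m : ℝ) - n < 1 := by
    have : ((m : ℝ) - n) * (2 * Real.pi) < 1 * (2 * Real.pi) := by nlinarith [hn.2, a0.1, a0.2, a1.1, a1.2]
    exact lt_of_mul_lt_mul_right this (by positivity)
  have u2 : (-1 : ℝ) < (m : ℝ) - n := by
    have : (-1 : ℝ) * (2 * Real.pi) < ((m : ℝ) - n) * (2 * Real.pi) := by
      nlinarith [hn.1, a0.1, a0.2, a1.1, a1.2]
    exact lt_of_mul_lt_mul_right this (by positivity)
  have u3 : m - n < 1 := by exact_mod_cast u1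
  have u4 : -1 < m - n := by exact_mod_cast u2
  have u5 : m = n := by omega
  exact ⟨k, by omega⟩

theorem np_left (L : Loop c) (J : Inj c) {z0 : ℂ} (h0 : 0 < mgc c z0) (A : Ang c (mgc c) θ g)
    {s t : ℝ} (Cs : Cone c s) (Ct : Cone c t) {ls lt : ℤ} (h1 : KL θ s ls) (h2 : KL θ t lt)
    (hp : ∀ ρ > 0, NP c s t ρ) : lt = ls := by
  obtain ⟨m, hm⟩ := KL.parity L J h0 A Cs Ct h1 h2
  obtain ⟨r1, hr1, e1⟩ := ends L J A Cs h1
  obtain ⟨r2, hr2, e2⟩ := ends L J A Ct h2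
  obtain ⟨p, z, P, hz, hpol⟩ := hp (min r1 r2) (lt_min hr1 hr2)
  have m0 : (0:ℝ) ∈ Icc (0:ℝ) 1 := ⟨le_rfl, zero_le_one⟩
  have m1 : (1:ℝ) ∈ Icc (0:ℝ) 1 := ⟨zero_le_one, le_rfl⟩
  obtain ⟨a0, cs0⟩ := e1 _ _ (P.s1.trans_le (min_le_left _ _)) (P.s2.trans_le (min_le_left _ _))
    (P.lt 0 m0).1 (P.lt 0 m0).2
  obtain ⟨a1, -⟩ := e2 _ _ (P.t1.trans_le (min_le_right _ _)) (P.t2.trans_le (min_le_right _ _))
    (P.lt 1 m1).1 (P.lt 1 m1).2
  have hf : ContinuousOn (fun τ => θ (p τ).1 (p τ).2) (Icc 0 1) :=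
    A.cont.comp P.cont (fun τ hτ => P.lt τ hτ)
  have hml : (lt : ℝ) = ls + 2 * m := by
    have : lt = ls + 2 * m := by linarith
    rw [this]; push_cast; ring
  rw [hml] at a1
  have := avoid_floor hf (l := ls) (m := m) a0 a1 (fun τ hτ hh => by
    obtain ⟨ρ0, hρ0, f1, f2⟩ := A.ex _ _ (P.lt 0 m0).1 (P.lt 0 m0).2
    obtain ⟨ρ1, hρ1, g1, g2⟩ := A.ex _ _ (P.lt τ hτ).1 (P.lt τ hτ).2
    obtain ⟨w, hw, hzw⟩ : ∃ w : ℝ, 0 < w ∧
        mgc c z = w * Real.cos (θ (p 0).1 (p 0).2) := by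
      rcases hz with hz | hz
      · exact ⟨ρ0, hρ0, by rw [hz, f1]⟩
      · have hc : Real.cos (θ (p 0).1 (p 0).2) ≠ 0 := left_ne_zero_of_mul cs0.ne'
        refine ⟨ρ0 * (Real.cos (θ (p 0).1 (p 0).2) * Real.sin (θ (p 0).1 (p 0).2)) /
          Real.cos (θ (p 0).1 (p 0).2) ^ 2, by positivity, ?_⟩
        rw [hz, f2]
        field_simp
    refine hpol τ hτ ⟨?_, ?_⟩
    · rw [hzw, g1, show w * Real.cos (θ (p 0).1 (p 0).2) * (ρ1 * Real.cos (θ (p τ).1 (p τ).2)) =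
        (w * ρ1) * (Real.cos (θ (p 0).1 (p 0).2) * Real.cos (θ (p τ).1 (p τ).2)) by ring]
      exact mul_neg_of_pos_of_neg (mul_pos hw hρ1) hh.1
    · rw [hzw, g2, show w * Real.cos (θ (p 0).1 (p 0).2) * (ρ1 * Real.sin (θ (p τ).1 (p τ).2)) =
        (w * ρ1) * (Real.cos (θ (p 0).1 (p 0).2) * Real.sin (θ (p τ).1 (p τ).2)) by ring]
      exact mul_neg_of_pos_of_neg (mul_pos hw hρ1) hh.2)
  subst this
  linarith

/-- the parity condition for an arc: squares on the left or on the right -/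
def EvA (c : ℝ → ℂ) (s t : ℝ) : Prop :=
  (∀ ρ > 0, WP c s t ρ) ∨ (∀ ρ > 0, WP (fun u => c (-u)) (-s) (-t) ρ) ∨
  (∀ ρ > 0, NP c s t ρ) ∨ (∀ ρ > 0, NP (fun u => c (-u)) (-s) (-t) ρ) ∨ FL c s t ∨ FR c s t

theorem eva_even (L : Loop c) (J : Inj c) (nosq : NoSq (range c)) {z0 : ℂ} (h0 : 0 < mgc c z0)
    (A : Ang c (mgc c) θ g) {s t : ℝ} (h : AR c s t) {ls lt : ℤ} (h1 : KL θ s ls)
    (h2 : KL θ t lt) (H : EvA c s t) : ∃ k : ℤ, lt - ls = 4 * k := by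
  obtain ⟨ra, k1⟩ := exKR L J A h.ha
  obtain ⟨rb, k2⟩ := exKR L J A h.hb
  have e2 := parityX jP jT1 Y407.PEG.sgU jI L J nosq A h.ab h.ba h.ha h.hb h1 h2 k1 k2
  have hr : 0 < mgc (fun u => c (-u)) z0 := by rw [mgc_rev L]; exact h0
  rcases H with H | H | H | H | H | H
  · exact even_left L J h0 A h.ha h.hb h1 h2 H
  · obtain ⟨k, hk⟩ := even_left L.rev (J.rev L) hr (Ang.rev L A) h.ha.rev h.hb.rev k1.rev k2.rev H
    exact ⟨k, by linarith⟩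
  · have := np_left L J h0 A h.ha h.hb h1 h2 H
    exact ⟨0, by linarith⟩
  · have := np_left L.rev (J.rev L) hr (Ang.rev L A) h.ha.rev h.hb.rev k1.rev k2.rev H
    exact ⟨0, by linarith⟩
  · have := free_eq L J A h.ha h.hb h1 h2 H
    exact ⟨0, by linarith⟩
  · have := free_eqR L J A h.ha h.hb k1 k2 H
    exact ⟨0, by linarith⟩

/-- the path of chords that has first its one and then its other end fixed -/
theorem path_pq {p q ρ : ℝ} (hpq : p < q) (hq : q < p + 1) (hρ : 0 < ρ) :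
    ∃ P : ℝ → ℝ × ℝ, Pth P p q ρ ∧ ∀ τ ∈ Icc (0:ℝ) 1,
      ((P τ).1 = p ∧ (P τ).2 ∈ Ioc p q) ∨ ((P τ).2 = q ∧ (P τ).1 ∈ Ico p q) := by
  obtain ⟨δ, hδ, h1, h2⟩ : ∃ δ > 0, δ < ρ ∧ δ < q - p :=
    ⟨min (ρ / 2) ((q - p) / 2), lt_min (by linarith) (by linarith),
      (min_le_left _ _).trans_lt (by linarith), (min_le_right _ _).trans_lt (by linarith)⟩
  have hm : ∀ τ ∈ Icc (0:ℝ) 1,
      ((p + max 0 (2 * τ - 1) * (q - δ - p), p + δ + min 1 (2 * τ) * (q - p - δ)) : ℝ × ℝ).1 = p ∧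
      ((p + max 0 (2 * τ - 1) * (q - δ - p), p + δ + min 1 (2 * τ) * (q - p - δ)) : ℝ × ℝ).2 ∈
        Ioc p q ∨
      ((p + max 0 (2 * τ - 1) * (q - δ - p), p + δ + min 1 (2 * τ) * (q - p - δ)) : ℝ × ℝ).2 = q ∧
      ((p + max 0 (2 * τ - 1) * (q - δ - p), p + δ + min 1 (2 * τ) * (q - p - δ)) : ℝ × ℝ).1 ∈
        Ico p q := by
    intro τ hτ
    rcases le_total (2 * τ) 1 with h | h
    · left
      simp only
      rw [max_eq_left (by linarith), min_eq_right h]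
      have := hτ.1
      exact ⟨by ring, by nlinarith, by nlinarith⟩
    · right
      simp only
      rw [max_eq_right (by linarith), min_eq_left h]
      have := hτ.2
      exact ⟨by ring, by nlinarith, by nlinarith⟩
  refine ⟨fun τ => (p + max 0 (2 * τ - 1) * (q - δ - p), p + δ + min 1 (2 * τ) * (q - p - δ)),
    ⟨by fun_prop, fun τ hτ => ?_, ?_, ?_, ?_, ?_⟩, hm⟩
  · rcases hm τ hτ with ⟨h3, h4⟩ | ⟨h3, h4⟩
    · rw [h3]
      exact ⟨h4.1, by linarith [h4.2]⟩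
    · rw [h3]
      exact ⟨h4.2, by linarith [h4.1]⟩
  · simp; linarith
  · simp only [mul_zero]
    rw [min_eq_right zero_le_one]
    simp only [zero_mul, add_zero, add_sub_cancel_left]
    rw [abs_of_pos hδ]; exact h1
  · simp only
    rw [max_eq_right (by norm_num), show p + (2 * 1 - 1) * (q - δ - p) - q = -δ by ring, abs_neg,
      abs_of_pos hδ]
    exact h1
  · simp only
    rw [min_eq_left (by norm_num), show p + δ + 1 * (q - p - δ) - q = 0 by ring, abs_zero]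
    exact hρ

theorem fl_dd {p q : ℝ} (hpq : p < q) (hq : q < p + 1)
    (h1 : ∀ t ∈ Ioc p q, c p + I * (c t - c p) ∉ range c)
    (h2 : ∀ t ∈ Ico p q, c q + (1 - I) * (c t - c q) ∉ range c) : FL c p q := by
  intro ρ hρ
  obtain ⟨P, hP, hm⟩ := path_pq hpq hq hρ
  refine ⟨P, hP, Or.inr fun τ hτ => ?_⟩
  rw [DD_eq]
  rcases hm τ hτ with ⟨h3, h4⟩ | ⟨h3, h4⟩
  · rw [h3]
    exact h1 _ h4
  · rw [h3]
    have := h2 _ h4
    rwa [show c q + (1 - I) * (c (P τ).1 - c q) = c (P τ).1 + I * (c q - c (P τ).1) by ring] at this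

theorem fl_cc {p q : ℝ} (hpq : p < q) (hq : q < p + 1)
    (h1 : ∀ t ∈ Ioc p q, c p + (1 + I) * (c t - c p) ∉ range c)
    (h2 : ∀ t ∈ Ico p q, c q - I * (c t - c q) ∉ range c) : FL c p q := by
  intro ρ hρ
  obtain ⟨P, hP, hm⟩ := path_pq hpq hq hρ
  refine ⟨P, hP, Or.inl fun τ hτ => ?_⟩
  rw [CC_eq]
  rcases hm τ hτ with ⟨h3, h4⟩ | ⟨h3, h4⟩
  · rw [h3]
    have := h1 _ h4
    rwa [show c p + (1 + I) * (c (P τ).2 - c p) = c (P τ).2 + I * (c (P τ).2 - c p) by ring]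
      at this
  · rw [h3]
    have := h2 _ h4
    rwa [show c q - I * (c (P τ).1 - c q) = c q + I * (c q - c (P τ).1) by ring] at this

theorem fr_cc {p q : ℝ} (hpq : p < q) (hq : q < p + 1)
    (h1 : ∀ t ∈ Ioc p q, c p + -I * (c t - c p) ∉ range c)
    (h2 : ∀ t ∈ Ico p q, c q + (1 - -I) * (c t - c q) ∉ range c) : FR c p q := by
  intro ρ hρ
  obtain ⟨P, hP, hm⟩ := path_pq hpq hq hρ
  refine ⟨P, hP, Or.inl fun τ hτ => ?_⟩
  rw [CC_eq]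
  rcases hm τ hτ with ⟨h3, h4⟩ | ⟨h3, h4⟩
  · rw [h3]
    have := h1 _ h4
    rwa [show c p + -I * (c (P τ).2 - c p) = c p + I * (c p - c (P τ).2) by ring] at this
  · rw [h3]
    have := h2 _ h4
    rwa [show c q + (1 - -I) * (c (P τ).1 - c q) = c (P τ).1 + I * (c (P τ).1 - c q) by ring]
      at this

theorem fr_dd {p q : ℝ} (hpq : p < q) (hq : q < p + 1)
    (h1 : ∀ t ∈ Ioc p q, c p + (1 + -I) * (c t - c p) ∉ range c)
    (h2 : ∀ t ∈ Ico p q, c q - -I * (c t - c q) ∉ range c) : FR c p q := by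
  intro ρ hρ
  obtain ⟨P, hP, hm⟩ := path_pq hpq hq hρ
  refine ⟨P, hP, Or.inr fun τ hτ => ?_⟩
  rw [DD_eq]
  rcases hm τ hτ with ⟨h3, h4⟩ | ⟨h3, h4⟩
  · rw [h3]
    have := h1 _ h4
    rwa [show c p + (1 + -I) * (c (P τ).2 - c p) = c (P τ).2 + I * (c p - c (P τ).2) by ring]
      at this
  · rw [h3]
    have := h2 _ h4
    rwa [show c q - -I * (c (P τ).1 - c q) = c q + I * (c (P τ).1 - c q) by ring] at this

end Pool.Agent.N623.PEG
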